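import Mathlib

/-!
# MP_e350e5_lc: the number of sign tests for Delaunay triangulations in space

Files `B_X.lean` in this folder, `import Pool.Agent.Work.MP_e350e5_dt.Interface`, theorem `p_X : S_X`.
-/

set_option autoImplicit false

namespace Pool.DT

open MvPolynomial Finset

/-! ## Algebraic decision trees -/

/-- algebraic decision trees: an inner node tests the sign of a polynomial at the input -/
inductive Tree (σ β : Type) : Type
  | leaf (b : β) : Tree σ β
  | node (Q : MvPolynomial σ ℝ) (neg zero pos : Tree σ β) : Tree σ β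

/-- the output of the tree on the input `x` -/
noncomputable def Tree.run {σ β : Type} : Tree σ β → (σ → ℝ) → β
  | .leaf b, _ => b
  | .node Q l m r, x =>
    if eval x Q < 0 then l.run x else if eval x Q = 0 then m.run x else r.run x

/-- the largest number of tests -/
def Tree.depth {σ β : Type} : Tree σ β → ℕ
  | .leaf _ => 0
  | .node _ l m r => 1 + max l.depth (max m.depth r.depth)

/-! ## Points, determinants, Delaunay tetrahedra -/

/-- the determinant with the rows `u, v, w` -/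
def D3 {R : Type} [CommRing R] (u v w : Fin 3 → R) : R :=
  u 0 * (v 1 * w 2 - v 2 * w 1) - u 1 * (v 0 * w 2 - v 2 * w 0) + u 2 * (v 0 * w 1 - v 1 * w 0)

/-- the square of the norm -/
def nn {R : Type} [CommRing R] (u : Fin 3 → R) : R := u 0 ^ 2 + u 1 ^ 2 + u 2 ^ 2

/-- the determinant with the rows `(u, |u|²), (v, |v|²), (w, |w|²), (q, |q|²)` -/
def D4 {R : Type} [CommRing R] (u v w q : Fin 3 → R) : R :=
  nn q * D3 u v w - nn w * D3 u v q + nn v * D3 u w q - nn u * D3 v w q

/-- the point with index `i` -/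
def pt {n : ℕ} (x : Fin n × Fin 3 → ℝ) (i : Fin n) : Fin 3 → ℝ := fun c => x (i, c)

/-- the orientation determinant of four points -/
noncomputable def ori {n : ℕ} (x : Fin n × Fin 3 → ℝ) (a : Fin 4 → Fin n) : ℝ :=
  D3 (pt x (a 1) - pt x (a 0)) (pt x (a 2) - pt x (a 0)) (pt x (a 3) - pt x (a 0))

/-- the in-sphere determinant of five points -/
noncomputable def ins {n : ℕ} (x : Fin n × Fin 3 → ℝ) (a : Fin 5 → Fin n) : ℝ :=
  D4 (pt x (a 1) - pt x (a 0)) (pt x (a 2) - pt x (a 0)) (pt x (a 3) - pt x (a 0))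
    (pt x (a 4) - pt x (a 0))

/-- the square of the distance -/
def dsq (p c : Fin 3 → ℝ) : ℝ := nn (p - c)

/-- `c` is the centre of a sphere through the points with index in `T` -/
def IsCentre {n : ℕ} (x : Fin n × Fin 3 → ℝ) (T : Finset (Fin n)) (c : Fin 3 → ℝ) : Prop :=
  ∀ i ∈ T, ∀ j ∈ T, dsq (pt x i) c = dsq (pt x j) c

open Classical in
/-- the Delaunay tetrahedra: four points with exactly one circumscribed sphere, no point inside -/
noncomputable def Del {n : ℕ} (x : Fin n × Fin 3 → ℝ) : Finset (Finset (Fin n)) :=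
  univ.filter fun T => T.card = 4 ∧ (∃! c, IsCentre x T c) ∧
    ∃ c, IsCentre x T c ∧ ∀ i ∈ T, ∀ j, dsq (pt x i) c ≤ dsq (pt x j) c

/-- the predicates -/
abbrev Ix (n : ℕ) : Type := (Fin 4 → Fin n) ⊕ (Fin 5 → Fin n)

/-- the variable point with index `i` -/
noncomputable def V {n : ℕ} (i : Fin n) : Fin 3 → MvPolynomial (Fin n × Fin 3) ℝ :=
  fun c => X (i, c)

/-- the predicates as polynomials -/
noncomputable def pol {n : ℕ} : Ix n → MvPolynomial (Fin n × Fin 3) ℝ
  | .inl a => D3 (V (a 1) - V (a 0)) (V (a 2) - V (a 0)) (V (a 3) - V (a 0))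
  | .inr a => D4 (V (a 1) - V (a 0)) (V (a 2) - V (a 0)) (V (a 3) - V (a 0)) (V (a 4) - V (a 0))

/-- the values of the predicates -/
noncomputable def val {n : ℕ} (x : Fin n × Fin 3 → ℝ) : Ix n → ℝ
  | .inl a => ori x a
  | .inr a => ins x a

/-! ## Blocks -/

/-- EVA (30): evaluation commutes with the formulas (unfold, `map_sub`, `map_mul`, `eval_X`) -/
def S_EVA : Prop := ∀ (n : ℕ) (x : Fin n × Fin 3 → ℝ) (i : Ix n), eval x (pol i) = val x i

/-- DEG (40): the degrees (`totalDegree_sub`, `totalDegree_mul`, `totalDegree_X`, ..) -/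
def S_DEG : Prop := ∀ (n : ℕ) (i : Ix n), (pol i).totalDegree ≤ 5

/-- SPH (120): the Delaunay tetrahedra depend only on the signs. `T = {i0, i1, i2, i3}`, differences
`u, v, w` of the points with `i1, i2, i3` and `i0`. `c` is a centre iff `nn u = 2 c' · u`, .. for
`c' = c - p i0`. There is exactly one centre iff `D3 u v w ≠ 0` (if it is zero, add a vector of the
kernel: `Matrix.exists_mulVec_eq_zero_iff`; otherwise invert the matrix, `Matrix.det_fin_three`). Then
`D4 u v w q = (nn q - 2 c' · q) * D3 u v w` (ring identity), and `nn q - 2 c' · q` is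
`dsq (p j) c - dsq (p i0) c`, so the ball is empty iff for all `j` the product of the two signs is `≥ 0`. -/
def S_SPH : Prop := ∀ (n : ℕ) (x y : Fin n × Fin 3 → ℝ),
  (∀ i : Ix n, SignType.sign (val x i) = SignType.sign (val y i)) → Del x = Del y

/-- LOW (30): induction on `m`; add an element of `W \ A` of the least cardinality -/
def S_LOW : Prop := ∀ (α : Type) [DecidableEq α] (W : Finset (Finset α)) (m : ℕ), m ≤ W.card →
  ∃ A ⊆ W, A.card = m ∧ ∀ a ∈ A, ∀ b ∈ W, b ∉ A → ¬ b ⊆ a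

/-- ZER (80), uses LOW: the zero pattern. Induction on `k`. `k = 0`: at most one element (if there is
none: `leaf (F 0)`). Step: LOW with `m = W.card / 2` or `2 ^ k`: `A`, `B = W \ A` of cardinality `≤ 2 ^ k`;
test `Q = ∏ b ∈ B, ∑ i ∈ b, f i ^ 2`: for `x` with zero set `z ∈ B` it is `0`, for `z ∈ A` it is
positive. -/
def S_ZER : Prop := ∀ (σ β ι : Type) [Fintype ι] [DecidableEq ι] (f : ι → MvPolynomial σ ℝ)
  (F : (σ → ℝ) → β) (D k : ℕ) (W : Finset (Finset ι)), W.card ≤ 2 ^ k →
  (∀ z ∈ W, ∃ T : Tree σ β, T.depth ≤ D ∧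
    ∀ x, (∀ i, i ∈ z ↔ eval x (f i) = 0) → T.run x = F x) →
  ∃ T : Tree σ β, T.depth ≤ k + D ∧
    ∀ x, (∃ z ∈ W, ∀ i, i ∈ z ↔ eval x (f i) = 0) → T.run x = F x

/-- HAL (70): double counting over the subsets `S` of `Y`: a pair `v ≠ w` differs at some `i0 ∈ Y`, where
`v i0 = - w i0`; toggling `i0` in `S` (`S ↦ insert i0 S`, `S ↦ S.erase i0`) exchanges the `S` with equal
products and those with different products. -/
def S_HAL : Prop := ∀ (ι : Type) [Fintype ι] [DecidableEq ι] (Y : Finset ι)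
  (W : Finset (ι → SignType)), (∀ w ∈ W, ∀ i, w i = 0 ↔ i ∉ Y) →
  ∃ S ⊆ Y, 2 * (W.offDiag.filter fun v => ∏ i ∈ S, v.1 i = ∏ i ∈ S, v.2 i).card ≤ W.offDiag.card

/-- PAR (80), uses HAL: the signs for a fixed zero set. Induction on `k`. `k = 0`: `W` has at most one
element, `leaf`. Step: `S` from HAL, test `Q = ∏ i ∈ S, f i`, its sign is the product of the signs
(`map_prod`, `signHom`); the parts of `W` with the product `-1`, `1` have less than `2 ^ k` ordered pairs. -/
def S_PAR : Prop := ∀ (σ β ι : Type) [Fintype ι] [DecidableEq ι] (f : ι → MvPolynomial σ ℝ)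
  (F : (σ → ℝ) → β) (z : Finset ι) (k : ℕ) (W : Finset (ι → SignType)),
  (∀ x y, (∀ i, SignType.sign (eval x (f i)) = SignType.sign (eval y (f i))) → F x = F y) →
  (∀ w ∈ W, ∀ i, w i = 0 ↔ i ∈ z) → W.offDiag.card < 2 ^ k →
  ∃ T : Tree σ β, T.depth ≤ k ∧
    ∀ x, (fun i => SignType.sign (eval x (f i))) ∈ W → T.run x = F x

/-- GEN (60), uses ZER PAR. -/
def S_GEN : Prop := ∀ (σ β ι : Type) [Fintype ι] [DecidableEq ι] (f : ι → MvPolynomial σ ℝ)
  (F : (σ → ℝ) → β) (k : ℕ),
  (∀ x y, (∀ i, SignType.sign (eval x (f i)) = SignType.sign (eval y (f i))) → F x = F y) →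
  (Set.range fun (x : σ → ℝ) (i : ι) => SignType.sign (eval x (f i))).ncard ≤ 2 ^ k →
  ∃ T : Tree σ β, T.depth ≤ 3 * k ∧ ∀ x, T.run x = F x

/-- WAR (40), uses DEG; import Pool.Agent.Work.MP_461429_co.SignPatterns (card_signPatterns_le): choose one
point for every sign vector. -/
def S_WAR : Prop := ∀ n : ℕ,
  (Set.range fun (x : Fin n × Fin 3 → ℝ) (i : Ix n) => SignType.sign (eval x (pol i))).ncard ≤
    (1 + (2 * 5 * (n ^ 4 + n ^ 5) + 1) * (n * 3)) ^ (n * 3)

/-- NUM (40): `1 + (10 (n^4 + n^5) + 1) 3 n ≤ n ^ 12` or so for `n ≥ 2`, `k = 36 n clog2 n`. -/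
def S_NUM : Prop := ∃ C : ℝ, ∀ n : ℕ, 2 ≤ n → ∃ k : ℕ,
  (1 + (2 * 5 * (n ^ 4 + n ^ 5) + 1) * (n * 3)) ^ (n * 3) ≤ 2 ^ k ∧
    (3 * k : ℝ) ≤ C * n * Real.log n

/-- LOB (100): the lower bound. `m = n / 2`; for a permutation `π` of `Fin m` put the points `(π i, 0, 0)`,
`i < m`, and `(0, j, 1)`, `j < n - m`. `{i, i', m, m + 1} ∈ Del` iff `|π i - π i'| = 1`: the centre is
`((π i + π i')/2, 1/2, ..)` and `dsq (s'', 0, 0) - dsq (s, 0, 0) = (s'' - s)(s'' - s')`. So at least `m! / 2`
different outputs (the permutations up to reversal), and a tree of depth `h` has at most `3 ^ h` outputs. -/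
def S_LOB : Prop := ∃ c : ℝ, 0 < c ∧ ∀ n : ℕ, 4 ≤ n →
  ∀ T : Tree (Fin n × Fin 3) (Finset (Finset (Fin n))), (∀ x, T.run x = Del x) →
    c * n * Real.log n ≤ T.depth

/-- the main theorem -/
def Target : Prop := ∃ C : ℝ, ∀ n : ℕ, 2 ≤ n →
  ∃ T : Tree (Fin n × Fin 3)
    (Finset (Finset (Fin n)) × ((Fin 4 → Fin n) → SignType) × ((Fin 5 → Fin n) → SignType)),
    (T.depth : ℝ) ≤ C * n * Real.log n ∧
    ∀ x, T.run x = (Del x, fun a => SignType.sign (ori x a), fun a => SignType.sign (ins x a))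

theorem assembly (hE : S_EVA) (hS : S_SPH) (hG : S_GEN) (hW : S_WAR) (hN : S_NUM) : Target := by
  obtain ⟨C, hC⟩ := hN
  refine ⟨C, fun n hn => ?_⟩
  obtain ⟨k, hk1, hk2⟩ := hC n hn
  obtain ⟨T, hT, hrun⟩ := hG (Fin n × Fin 3) _ (Ix n) pol
    (fun x => ((Del x, fun a => SignType.sign (ori x a), fun a => SignType.sign (ins x a)) :
      Finset (Finset (Fin n)) × ((Fin 4 → Fin n) → SignType) × ((Fin 5 → Fin n) → SignType))) k
    (by
      intro x y hxy
      have h : ∀ i : Ix n, SignType.sign (val x i) = SignType.sign (val y i) := by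
        intro i
        have := hxy i
        rwa [hE, hE] at this
      have h1 : (fun a => SignType.sign (ori x a)) = fun a => SignType.sign (ori y a) := by
        funext a; exact h (.inl a)
      have h2 : (fun a => SignType.sign (ins x a)) = fun a => SignType.sign (ins y a) := by
        funext a; exact h (.inr a)
      simp only [hS n x y h, h1, h2])
    (le_trans (hW n) hk1)
  refine ⟨T, ?_, hrun⟩
  have : (T.depth : ℝ) ≤ 3 * k := by exact_mod_cast hT
  linarith

end Pool.DT
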